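import Mathlib

set_option autoImplicit false

/-!
Definitions for the own statement of MP_5c1719_al: the free inverse monoid as the quotient of the
free monoid with involution by the Vagner congruence, recognizable subsets, finite automata.
-/

namespace Pool.Agent.FIMOwn

/-- The letters: `Sum.inl i` is the generator `x i`, `Sum.inr i` is its formal inverse. -/
abbrev Letter (X : Type) := X ⊕ X

/-- The formal inverse of a word: `(a₁ ⋯ a_k)⁻¹ = a_k⁻¹ ⋯ a₁⁻¹`. -/
def finv {X : Type} (w : FreeMonoid (Letter X)) : FreeMonoid (Letter X) :=
  FreeMonoid.ofList (((FreeMonoid.toList w).map Sum.swap).reverse)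

/-- The defining relations of the free inverse monoid. -/
inductive VRel {X : Type} : FreeMonoid (Letter X) → FreeMonoid (Letter X) → Prop
  | reg (w : FreeMonoid (Letter X)) : VRel (w * finv w * w) w
  | comm (v w : FreeMonoid (Letter X)) :
      VRel (v * finv v * (w * finv w)) (w * finv w * (v * finv v))

/-- The Vagner congruence. -/
def vagner (X : Type) : Con (FreeMonoid (Letter X)) := conGen VRel

/-- The free inverse monoid on `X`. -/
abbrev FIM (X : Type) := (vagner X).Quotient

/-- The canonical surjection `π : (X ∪ X⁻¹)* → FIM X`. -/
def pi (X : Type) : FreeMonoid (Letter X) →* FIM X := (vagner X).mk'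

/-- `K` is recognizable in the monoid `M`: `K = φ⁻¹(φ(K))` for some homomorphism `φ` from `M` to a
finite monoid. -/
def Recognizable {M : Type} [Monoid M] (K : Set M) : Prop :=
  ∃ (F : Type) (_ : Monoid F) (_ : Finite F) (φ : M →* F), φ ⁻¹' (φ '' K) = K

/-- Finite automata over `X ∪ X⁻¹` (with silent transitions): the list of the transitions
`(source, label, target)` and the list of the final states. States are natural numbers, the
initial state is `0`. -/
abbrev Automaton (X : Type) := List (ℕ × Option (Letter X) × ℕ) × List ℕ

/-- `Run A p w q`: the automaton `A` can go from the state `p` to the state `q` reading `w`. -/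
inductive Run {X : Type} (A : Automaton X) : ℕ → FreeMonoid (Letter X) → ℕ → Prop
  | nil (p : ℕ) : Run A p 1 p
  | silent {p q r : ℕ} {w : FreeMonoid (Letter X)} :
      (p, none, q) ∈ A.1 → Run A q w r → Run A p w r
  | step {p q r : ℕ} {a : Letter X} {w : FreeMonoid (Letter X)} :
      (p, some a, q) ∈ A.1 → Run A q w r → Run A p (FreeMonoid.of a * w) r

/-- The language of an automaton. -/
def lang {X : Type} (A : Automaton X) : Set (FreeMonoid (Letter X)) :=
  {w | ∃ q ∈ A.2, Run A 0 w q}

/-- The rational subset of the free inverse monoid presented by an automaton. -/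
def rat {X : Type} (A : Automaton X) : Set (FIM X) := pi X '' lang A

/-- The same automaton, with the letters `x i`, `i < n`, named by natural numbers. -/
def name {n : ℕ} (A : Automaton (Fin n)) : Automaton ℕ :=
  (A.1.map fun t => (t.1, t.2.1.map (Sum.map Fin.val Fin.val), t.2.2), A.2)

end Pool.Agent.FIMOwn
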