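import Pool.Agent.Lib.MP_5c1719_al.Own.Defs
import Pool.Agent.Lib.MP_5c1719_al.Residual

set_option autoImplicit false

/-! Munn's theorem: two words are congruent iff they have the same Munn tree. -/

namespace Pool.Agent.FIMOwn

open RecFIM

variable {n : ℕ}

/-- the congruence given by Munn trees -/
def munn (n : ℕ) : Con (FreeMonoid (Letter (Fin n))) where
  r w v := ∀ x : List (Ltr n), IsRed x → SameFrom x (FreeMonoid.toList w) (FreeMonoid.toList v)
  iseqv :=
    ⟨fun _ _ _ => ⟨rfl, fun _ => Iff.rfl⟩,
      fun h x hx => ⟨(h x hx).1.symm, fun z => ((h x hx).2 z).symm⟩,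
      fun h h' x hx => ⟨(h x hx).1.trans (h' x hx).1, fun z => ((h x hx).2 z).trans ((h' x hx).2 z)⟩⟩
  mul' := by
    intro w x y z h h' u hu
    have h1 := h u hu
    have h2 := h' (endW u (FreeMonoid.toList w)) (hu.endW _)
    refine ⟨?_, fun t => ?_⟩
    · rw [FreeMonoid.toList_mul, FreeMonoid.toList_mul, endW_append, endW_append, h2.1, h1.1]
    · rw [FreeMonoid.toList_mul, FreeMonoid.toList_mul, mem_trW_append, mem_trW_append, h1.2 t,
        h2.2 t, h1.1]

lemma toList_finv (w : FreeMonoid (Letter (Fin n))) :
    FreeMonoid.toList (finv w) = winv (FreeMonoid.toList w) := rfl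

lemma vagner_le : vagner (Fin n) ≤ munn n := by
  rw [vagner, Con.conGen_le]
  intro w v h
  cases h with
  | reg w =>
    intro x hx
    set l := FreeMonoid.toList v with hl
    have e1 : FreeMonoid.toList (v * finv v * v) = l ++ winv l ++ l := rfl
    rw [e1]
    have e2 : endW x (l ++ winv l) = x := by rw [endW_append, endW_winv hx]
    refine ⟨by rw [endW_append, e2], fun t => ?_⟩
    rw [mem_trW_append, e2, mem_trW_append, trW_winv hx]
    tauto
  | comm v w =>
    intro x hx
    set l := FreeMonoid.toList v with hl
    set l' := FreeMonoid.toList w with hl'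
    have e1 : FreeMonoid.toList (v * finv v * (w * finv w)) = (l ++ winv l) ++ (l' ++ winv l') := rfl
    have e2 : FreeMonoid.toList (w * finv w * (v * finv v)) = (l' ++ winv l') ++ (l ++ winv l) := rfl
    have e3 : ∀ l : List (Ltr n), endW x (l ++ winv l) = x := by
      intro l
      rw [endW_append, endW_winv hx]
    rw [e1, e2]
    refine ⟨by rw [endW_append x (l ++ winv l), endW_append x (l' ++ winv l'), e3, e3, e3],
      fun t => ?_⟩
    rw [mem_trW_append x (l ++ winv l), mem_trW_append x (l' ++ winv l'), e3, e3]
    tauto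

/-! ### the converse -/

/-- the class of a word given by a list -/
def qw (w : List (Ltr n)) : FIM (Fin n) := pi (Fin n) (FreeMonoid.ofList w)

lemma qw_append (w v : List (Ltr n)) : qw (w ++ v) = qw w * qw v := by
  rw [qw, FreeMonoid.ofList_append, map_mul]
  rfl

lemma qw_nil : qw ([] : List (Ltr n)) = 1 := map_one _

lemma qw_reg (w : List (Ltr n)) : qw w * qw (winv w) * qw w = qw w := by
  rw [← qw_append, ← qw_append]
  exact (Con.eq _).2 (ConGen.Rel.of _ _ (VRel.reg (FreeMonoid.ofList w)))

lemma qw_comm (v w : List (Ltr n)) : qw v * qw (winv v) * (qw w * qw (winv w)) =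
    qw w * qw (winv w) * (qw v * qw (winv v)) := by
  rw [← qw_append, ← qw_append, ← qw_append, ← qw_append]
  exact (Con.eq _).2 (ConGen.Rel.of _ _ (VRel.comm (FreeMonoid.ofList v) (FreeMonoid.ofList w)))

/-- the idempotent of a node -/
def idn (z : List (Ltr n)) : FIM (Fin n) := qw z.reverse * qw (winv z.reverse)

lemma idn_idem (z : List (Ltr n)) : idn z * idn z = idn z := by
  unfold idn
  rw [← mul_assoc, qw_reg]

lemma idn_comm (z y : List (Ltr n)) : idn z * idn y = idn y * idn z := qw_comm _ _

lemma idn_mul (z : List (Ltr n)) : idn z * qw z.reverse = qw z.reverse := qw_reg _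

/-- the idempotent of a list of nodes -/
def idl (l : List (List (Ltr n))) : FIM (Fin n) := (l.map idn).prod

lemma idl_cons (z : List (Ltr n)) (l : List (List (Ltr n))) : idl (z :: l) = idn z * idl l := by
  simp [idl]

lemma idl_comm (z : List (Ltr n)) (l : List (List (Ltr n))) : idn z * idl l = idl l * idn z := by
  induction l with
  | nil => simp [idl]
  | cons y l ih => rw [idl_cons, ← mul_assoc, idn_comm z y, mul_assoc, ih, mul_assoc]

lemma idl_comm' (l l' : List (List (Ltr n))) : idl l * idl l' = idl l' * idl l := by
  induction l with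
  | nil => simp [idl]
  | cons y l ih => rw [idl_cons, mul_assoc, ih, ← mul_assoc, idl_comm, mul_assoc]

lemma idn_absorb {z : List (Ltr n)} {l : List (List (Ltr n))} (h : z ∈ l) :
    idn z * idl l = idl l := by
  induction l with
  | nil => simp at h
  | cons y l ih =>
    rw [idl_cons]
    rcases List.mem_cons.1 h with rfl | h
    · rw [← mul_assoc, idn_idem]
    · rw [← mul_assoc, idn_comm, mul_assoc, ih h]

lemma idl_absorb {l l' : List (List (Ltr n))} (h : ∀ z ∈ l, z ∈ l') : idl l * idl l' = idl l' := by
  induction l with
  | nil => simp [idl]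
  | cons y l ih =>
    rw [idl_cons, mul_assoc, ih fun z hz => h z (List.mem_cons_of_mem _ hz),
      idn_absorb (h y List.mem_cons_self)]

lemma idl_congr {l l' : List (List (Ltr n))} (h : ∀ z, z ∈ l ↔ z ∈ l') : idl l = idl l' := by
  rw [← idl_absorb (l := l) (l' := l') fun z hz => (h z).1 hz, idl_comm',
    idl_absorb fun z hz => (h z).2 hz]

lemma qw_single (x : List (Ltr n)) (a : Ltr n) : qw x.reverse * qw [a] =
    idn x * qw (move a x).reverse := by
  cases x with
  | nil =>
    have : idn ([] : List (Ltr n)) = 1 := by
      unfold idn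
      simp [qw_nil, winv]
    rw [this, one_mul]
    simp [move, qw_nil]
  | cons b y =>
    by_cases hb : b = linv a
    · have hm : move a (b :: y) = y := by simp [move, hb]
      rw [hm]
      unfold idn
      have h1 : (b :: y).reverse = y.reverse ++ [linv a] := by simp [hb]
      have h2 : winv (b :: y).reverse = [a] ++ winv y.reverse := by
        rw [h1, winv]
        simp [winv, linv]
      rw [h2, h1, qw_append, qw_append]
      have h3 := qw_comm [linv a] (winv y.reverse)
      have h4 : winv [linv a] = [a] := by simp [winv]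
      rw [winv_winv, h4] at h3
      have h5 : qw y.reverse * (qw (winv y.reverse) * qw y.reverse) = qw y.reverse := by
        rw [← mul_assoc, qw_reg]
      calc qw y.reverse * qw [linv a] * qw [a]
          = qw y.reverse * (qw (winv y.reverse) * qw y.reverse) * (qw [linv a] * qw [a]) := by
            rw [h5, mul_assoc]
        _ = qw y.reverse * (qw (winv y.reverse) * qw y.reverse * (qw [linv a] * qw [a])) := by
            rw [mul_assoc]
        _ = qw y.reverse * (qw [linv a] * qw [a] * (qw (winv y.reverse) * qw y.reverse)) := by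
            rw [h3]
        _ = _ := by simp only [mul_assoc]
    · have hm : move a (b :: y) = a :: b :: y := by simp [move, hb]
      rw [hm, List.reverse_cons (a := a), qw_append, ← mul_assoc, idn_mul]

lemma qw_eq (x w : List (Ltr n)) : qw x.reverse * qw w = idl (trW x w) * qw (endW x w).reverse := by
  induction w generalizing x with
  | nil =>
    simp only [trW, endW, idl_cons]
    have : idl ([] : List (List (Ltr n))) = 1 := by simp [idl]
    rw [this, mul_one, idn_mul, qw_nil, mul_one]
  | cons a w ih =>
    have h1 : qw (a :: w) = qw [a] * qw w := by rw [← qw_append]; rfl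
    rw [h1, ← mul_assoc, qw_single, mul_assoc, ih, trW, idl_cons, mul_assoc]
    rfl

/-- Munn's theorem -/
theorem munn_iff (w v : List (Ltr n)) : qw w = qw v ↔ SameFrom [] w v := by
  constructor
  · intro h
    have h1 : vagner (Fin n) (FreeMonoid.ofList w) (FreeMonoid.ofList v) := (Con.eq _).1 h
    exact vagner_le h1 [] trivial
  · rintro ⟨h1, h2⟩
    have e1 := qw_eq [] w
    have e2 := qw_eq [] v
    simp only [List.reverse_nil, qw_nil, one_mul] at e1 e2
    rw [e1, e2, h1, idl_congr h2]

end Pool.Agent.FIMOwn
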