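import Pool.Agent.Lib.MP_5c1719_al.Own.Unif

set_option autoImplicit false

/-! The uniform decision procedure is primitive recursive. -/

namespace Pool.Agent.FIMOwn

open RecFIM

/-! bounds -/

theorem pr_pow {α : Type} [Primcodable α] {f g : α → ℕ} (hf : Primrec f) (hg : Primrec g) :
    Primrec (fun a => f a ^ g a) := primrec_pow.comp hf hg

theorem pr_mul {α : Type} [Primcodable α] {f g : α → ℕ} (hf : Primrec f) (hg : Primrec g) :
    Primrec (fun a => f a * g a) := Primrec.nat_mul.comp hf hg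

theorem pr_add {α : Type} [Primcodable α] {f g : α → ℕ} (hf : Primrec f) (hg : Primrec g) :
    Primrec (fun a => f a + g a) := Primrec.nat_add.comp hf hg

theorem pr_letN : Primrec letN := by
  unfold letN
  refine Primrec.list_append.comp ?_ ?_
  · exact Primrec.list_map Primrec.list_range (Primrec.sumInl.comp Primrec.snd)
  · exact Primrec.list_map Primrec.list_range (Primrec.sumInr.comp Primrec.snd)

theorem pr_wordsN : Primrec₂ wordsN := by
  unfold wordsN
  exact primrec_lst.comp (pr_letN.comp Primrec.fst) Primrec.snd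

theorem pr_bndN : Primrec₂ bndN := by
  unfold bndN
  exact pr_add (pr_mul (Primrec.list_length.comp pr_wordsN)
    (pr_mul (Primrec.const 2) Primrec.snd)) Primrec.snd

theorem pr_bQ0 : Primrec₂ bQ0 := by
  unfold bQ0
  have h : Primrec (fun p : ℕ × ℕ => bLab p.2) := primrec_bLab.comp Primrec.snd
  exact pr_mul (pr_mul h (pr_pow h (pr_add Primrec.fst Primrec.fst))) (Primrec.const (2 ^ 11))

theorem pr_qv (c : ℕ) : Primrec (fun p : ℕ × ℕ => c * c ^ (p.1 + p.1) * 2) :=
  pr_mul (pr_mul (Primrec.const c) (pr_pow (Primrec.const c) (pr_add Primrec.fst Primrec.fst)))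
    (Primrec.const 2)

theorem pr_two {f : ℕ → ℕ → ℕ} (hf : Primrec₂ f) : Primrec₂ (fun n k => 2 ^ f n k) :=
  pr_pow (Primrec.const 2) hf

theorem pr_bQ3' : Primrec₂ bQ3' := by
  unfold bQ3'
  have h := pr_two (pr_two pr_bQ0)
  exact pr_mul h (pr_mul h (pr_qv 4))

theorem pr_bQ4' : Primrec₂ bQ4' := by
  unfold bQ4'
  exact pr_mul (pr_two pr_bQ3') (pr_mul (pr_qv 8) (pr_qv 4))

theorem pr_bQ5' : Primrec₂ bQ5' := by
  unfold bQ5'
  exact pr_mul (pr_two pr_bQ4') (pr_qv 4)

theorem pr_bQ5 : Primrec₂ bQ5 := by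
  unfold bQ5
  exact pr_two pr_bQ5'

/-! reading words -/

theorem pr_swap : Primrec (fun a : LN => a.swap) := by
  have h1 : Primrec₂ (fun (_ : LN) (x : ℕ) => (Sum.inr x : LN)) :=
    Primrec.sumInr.comp Primrec.snd
  have h2 : Primrec₂ (fun (_ : LN) (x : ℕ) => (Sum.inl x : LN)) :=
    Primrec.sumInl.comp Primrec.snd
  refine (Primrec.sumCasesOn Primrec.id h1 h2).of_eq ?_
  rintro (a | a) <;> rfl

theorem pr_mvN : Primrec₂ mvN := by
  have h : Primrec₂ (fun (p : LN × List LN) (q : LN × List LN) =>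
      if q.1 = p.1.swap then q.2 else p.1 :: q.1 :: q.2) := by
    refine Primrec.ite (Primrec.eq.comp (Primrec.fst.comp Primrec.snd)
      (pr_swap.comp (Primrec.fst.comp Primrec.fst))) (Primrec.snd.comp Primrec.snd) ?_
    exact Primrec.list_cons.comp (Primrec.fst.comp Primrec.fst)
      (Primrec.list_cons.comp (Primrec.fst.comp Primrec.snd) (Primrec.snd.comp Primrec.snd))
  refine (Primrec.list_casesOn (f := fun p : LN × List LN => p.2) (g := fun p => [p.1])
    Primrec.snd (Primrec.list_cons.comp Primrec.fst (Primrec.const [])) h).of_eq ?_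
  rintro ⟨a, w⟩
  cases w <;> rfl

theorem pr_trN : Primrec trN := by
  have h : Primrec₂ (fun (_ : List LN) (p : (List LN × List (List LN)) × LN) =>
      (mvN p.2 p.1.1, mvN p.2 p.1.1 :: p.1.2)) := by
    have hm : Primrec (fun q : List LN × ((List LN × List (List LN)) × LN) =>
        mvN q.2.2 q.2.1.1) :=
      pr_mvN.comp (Primrec.snd.comp Primrec.snd) (Primrec.fst.comp (Primrec.fst.comp Primrec.snd))
    exact Primrec.pair hm (Primrec.list_cons.comp hm
      (Primrec.snd.comp (Primrec.fst.comp Primrec.snd)))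
  exact Primrec.list_foldl Primrec.id (Primrec.const ([], [[]])) h

theorem pr_mem : PrimrecRel (fun (z : List LN) (l : List (List LN)) => ∃ z' ∈ l, z' = z) := by
  have h : PrimrecRel (fun (z' z : List LN) => z' = z) := Primrec.eq
  exact h.exists_mem_list.comp Primrec.snd Primrec.fst

theorem pr_sub : PrimrecRel (fun (l l' : List (List LN)) => ∀ z ∈ l, ∃ z' ∈ l', z' = z) :=
  pr_mem.forall_mem_list

theorem pr_sameN : PrimrecRel sameN := by
  have h1 : Primrec (fun p : List LN × List LN => trN p.1) := pr_trN.comp Primrec.fst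
  have h2 : Primrec (fun p : List LN × List LN => trN p.2) := pr_trN.comp Primrec.snd
  have a1 : PrimrecPred (fun p : List LN × List LN => (trN p.1).1 = (trN p.2).1) :=
    Primrec.eq.comp (Primrec.fst.comp h1) (Primrec.fst.comp h2)
  have a2 : PrimrecPred (fun p : List LN × List LN =>
      ∀ z ∈ (trN p.1).2, ∃ z' ∈ (trN p.2).2, z' = z) :=
    pr_sub.comp (Primrec.snd.comp h1) (Primrec.snd.comp h2)
  have a3 : PrimrecPred (fun p : List LN × List LN =>
      ∀ z ∈ (trN p.2).2, ∃ z' ∈ (trN p.1).2, z' = z) :=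
    pr_sub.comp (Primrec.snd.comp h2) (Primrec.snd.comp h1)
  exact a1.and (a2.and a3)

theorem pr_chkN : Primrec chkN := by
  have h : Primrec₂ (fun (_ : List TN) (p : Option ℕ × TN) =>
      p.1.bind (fun q => if p.2.1 = q then some p.2.2.2 else none)) := by
    refine Primrec.option_bind (Primrec.fst.comp Primrec.snd) ?_
    refine Primrec.ite (Primrec.eq.comp (Primrec.fst.comp
      (Primrec.snd.comp (Primrec.snd.comp Primrec.fst))) Primrec.snd) ?_ (Primrec.const none)
    exact Primrec.option_some.comp (Primrec.snd.comp (Primrec.snd.comp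
      (Primrec.snd.comp (Primrec.snd.comp Primrec.fst))))
  exact Primrec.list_foldl Primrec.id (Primrec.const (some 0)) h

theorem pr_kkN : Primrec kkN := by
  have h : Primrec₂ (fun (_ : AN) (p : ℕ × TN) => p.1 + p.2.1 + p.2.2.2) := by
    refine Primrec.nat_add.comp (Primrec.nat_add.comp (Primrec.fst.comp Primrec.snd)
      (Primrec.fst.comp (Primrec.snd.comp Primrec.snd))) ?_
    exact Primrec.snd.comp (Primrec.snd.comp (Primrec.snd.comp Primrec.snd))
  exact Primrec.list_foldl Primrec.fst (Primrec.const 0) h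

theorem pr_wdN : Primrec wdN := by
  unfold wdN
  exact Primrec.listFilterMap Primrec.id (Primrec.fst.comp (Primrec.snd.comp Primrec.snd))

theorem pr_MBN : PrimrecRel MBN := by
  have h1 : PrimrecRel (fun (q : ℕ) (l : List TN) => chkN l = some q) :=
    Primrec.eq.comp (pr_chkN.comp Primrec.snd) (Primrec.option_some.comp Primrec.fst)
  have h2 : PrimrecRel (fun (l : List TN) (p : AN × List LN) =>
      (∃ q ∈ p.1.2, chkN l = some q) ∧ sameN p.2 (wdN l)) := by
    refine PrimrecPred.and ?_ ?_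
    · exact h1.exists_mem_list.comp (Primrec.snd.comp (Primrec.fst.comp Primrec.snd)) Primrec.fst
    · exact pr_sameN.comp (Primrec.snd.comp Primrec.snd) (pr_wdN.comp Primrec.fst)
  have h3 : Primrec (fun p : AN × List LN => lst p.1.1 (bP (kkN p.1) p.2.length)) :=
    primrec_lst.comp (Primrec.fst.comp Primrec.fst)
      (primrec_bP.comp (pr_kkN.comp Primrec.fst) (Primrec.list_length.comp Primrec.snd))
  exact h2.exists_mem_list.comp h3 Primrec.id

theorem pr_DDN : PrimrecPred (fun p : ℕ × AN => DDN p.1 p.2) := by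
  have c1 : PrimrecRel (fun (w : List LN) (p : (ℕ × AN) × List LN × List LN) =>
      (MBN p.1.2 (p.2.1 ++ w) ↔ MBN p.1.2 (p.2.2 ++ w))) := by
    refine primrec_iff ?_ ?_
    · exact pr_MBN.comp (Primrec.snd.comp (Primrec.fst.comp Primrec.snd))
        (Primrec.list_append.comp (Primrec.fst.comp (Primrec.snd.comp Primrec.snd)) Primrec.fst)
    · exact pr_MBN.comp (Primrec.snd.comp (Primrec.fst.comp Primrec.snd))
        (Primrec.list_append.comp (Primrec.snd.comp (Primrec.snd.comp Primrec.snd)) Primrec.fst)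
  have hk : Primrec (fun p : ℕ × AN => kkN p.2) := pr_kkN.comp Primrec.snd
  have b1 : Primrec (fun p : ℕ × AN => bndN p.1 (bQ5 p.1 (kkN p.2))) :=
    pr_bndN.comp Primrec.fst (pr_bQ5.comp Primrec.fst hk)
  have b2 : Primrec (fun p : ℕ × AN => wordsN p.1 (bndN p.1 ((bndN p.1 (bQ5 p.1 (kkN p.2)) + 2) +
      bQ3' p.1 (kkN p.2)))) := by
    refine pr_wordsN.comp Primrec.fst (pr_bndN.comp Primrec.fst (pr_add
      (pr_add b1 (Primrec.const 2)) ?_))
    exact pr_bQ3'.comp Primrec.fst hk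
  have c2 : PrimrecPred (fun (p : (ℕ × AN) × List LN × List LN) =>
      ∀ w ∈ wordsN p.1.1 (bndN p.1.1 ((bndN p.1.1 (bQ5 p.1.1 (kkN p.1.2)) + 2) +
        bQ3' p.1.1 (kkN p.1.2))),
        (MBN p.1.2 (p.2.1 ++ w) ↔ MBN p.1.2 (p.2.2 ++ w))) :=
    c1.forall_mem_list.comp (b2.comp Primrec.fst) Primrec.id
  have c3 : PrimrecRel (fun (u' : List LN) (p : (ℕ × AN) × List LN) =>
      ∀ w ∈ wordsN p.1.1 (bndN p.1.1 ((bndN p.1.1 (bQ5 p.1.1 (kkN p.1.2)) + 2) +
        bQ3' p.1.1 (kkN p.1.2))),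
        (MBN p.1.2 (p.2 ++ w) ↔ MBN p.1.2 (u' ++ w))) :=
    c2.comp (f := fun q : List LN × ((ℕ × AN) × List LN) => (q.2.1, q.2.2, q.1))
      (Primrec.pair (Primrec.fst.comp Primrec.snd)
        (Primrec.pair (Primrec.snd.comp Primrec.snd) Primrec.fst))
  have c4 : PrimrecPred (fun (p : (ℕ × AN) × List LN) =>
      ∃ u' ∈ wordsN p.1.1 (bndN p.1.1 (bQ5 p.1.1 (kkN p.1.2))),
      ∀ w ∈ wordsN p.1.1 (bndN p.1.1 ((bndN p.1.1 (bQ5 p.1.1 (kkN p.1.2)) + 2) +
        bQ3' p.1.1 (kkN p.1.2))),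
        (MBN p.1.2 (p.2 ++ w) ↔ MBN p.1.2 (u' ++ w))) :=
    c3.exists_mem_list.comp ((pr_wordsN.comp Primrec.fst b1).comp Primrec.fst) Primrec.id
  have c5 : PrimrecRel (fun (u : List LN) (A : ℕ × AN) =>
      ∃ u' ∈ wordsN A.1 (bndN A.1 (bQ5 A.1 (kkN A.2))),
      ∀ w ∈ wordsN A.1 (bndN A.1 ((bndN A.1 (bQ5 A.1 (kkN A.2)) + 2) + bQ3' A.1 (kkN A.2))),
        (MBN A.2 (u ++ w) ↔ MBN A.2 (u' ++ w))) :=
    c4.comp (f := fun q : List LN × (ℕ × AN) => (q.2, q.1)) (Primrec.pair Primrec.snd Primrec.fst)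
  have b3 : Primrec (fun p : ℕ × AN => wordsN p.1 (bndN p.1 (bQ5 p.1 (kkN p.2)) + 1)) :=
    pr_wordsN.comp Primrec.fst (Primrec.succ.comp b1)
  exact c5.forall_mem_list.comp b3 Primrec.id

/-- the uniform decision procedure -/
theorem uniform : ∃ f : ℕ × AN → Bool, Primrec f ∧
    ∀ (n : ℕ) (A : Automaton (Fin n)), f (n, name A) = true ↔ Recognizable (rat A) := by
  obtain ⟨hdec, hprim⟩ := pr_DDN
  refine ⟨fun p => decide (DDN p.1 p.2), hprim, fun n A => ?_⟩
  rw [decide_eq_true_iff]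
  show DDN n (name A) ↔ _
  rw [DDN_name, DD_iff, recognizable_rat_iff]

end Pool.Agent.FIMOwn
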