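import Pool.Agent.Lib.MP_5c1719_al.Own.Munn

set_option autoImplicit false

/-! Recognizability means finitely many residuals; the language of an automaton. -/

namespace Pool.Agent.FIMOwn

open RecFIM

variable {n : ℕ}

/-- the set of all `m` with `u m ∈ K` -/
def res {M : Type} [Monoid M] (K : Set M) (u : M) : Set M := {m | u * m ∈ K}

lemma res_mul {M : Type} [Monoid M] (K : Set M) (u v : M) : res K (u * v) = res (res K u) v := by
  ext m
  simp [res, mul_assoc]

/-- recognizable subsets are those with finitely many residuals -/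
theorem recognizable_iff {M : Type} [Monoid M] (K : Set M) :
    Recognizable K ↔ (Set.range (res K)).Finite := by
  constructor
  · rintro ⟨F, hF, hfin, φ, hφ⟩
    have h1 : ∀ m, m ∈ K ↔ φ m ∈ φ '' K := by
      intro m
      rw [← Set.mem_preimage, hφ]
    have h2 : Set.range (res K) ⊆ Set.range (fun f : F => {m | f * φ m ∈ φ '' K}) := by
      rintro _ ⟨u, rfl⟩
      refine ⟨φ u, ?_⟩
      ext m
      rw [res, Set.mem_ofPred_eq, Set.mem_ofPred_eq, h1, map_mul]
    exact (Set.finite_range _).subset h2
  · intro hfin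
    have hR : Finite (Set.range (res K)) := hfin
    let act : M → Function.End (Set.range (res K)) := fun m S =>
      ⟨res S.1 m, by
        obtain ⟨u, hu⟩ := S.2
        exact ⟨u * m, by rw [← hu, res_mul]⟩⟩
    have hact : ∀ m m', act (m * m') = act m' * act m := by
      intro m m'
      funext S
      apply Subtype.ext
      exact res_mul S.1 m m'
    have hone : act 1 = 1 := by
      funext S
      apply Subtype.ext
      show res S.1 1 = S.1
      ext m
      simp [res]
    let φ : M →* (Function.End (Set.range (res K)))ᵐᵒᵖ :=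
      { toFun := fun m => MulOpposite.op (act m)
        map_one' := by rw [hone]; rfl
        map_mul' := fun m m' => by rw [hact]; rfl }
    have hfe : Finite (Function.End (Set.range (res K))) :=
      inferInstanceAs (Finite (Set.range (res K) → Set.range (res K)))
    refine ⟨(Function.End (Set.range (res K)))ᵐᵒᵖ, inferInstance,
      Finite.of_injective MulOpposite.unop MulOpposite.unop_injective, φ, ?_⟩
    have hK : res K 1 = K := by
      ext m
      simp [res]
    have key : ∀ m, m ∈ K ↔ (1 : M) ∈ (act m ⟨K, ⟨1, hK⟩⟩).1 := by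
      intro m
      show m ∈ K ↔ 1 ∈ res K m
      simp [res]
    ext m
    constructor
    · rintro ⟨k, hk, hkm⟩
      have : act k = act m := MulOpposite.op_injective hkm
      rw [key, ← this, ← key]
      exact hk
    · intro hm
      exact ⟨m, hm, rfl⟩

lemma run_iff (A : Aut n) (p q : ℕ) (w : FreeMonoid (Letter (Fin n))) :
    Run A p w q ↔ ∃ l, PthOK A.1 p l ∧ fst' p l = q ∧ wd l = FreeMonoid.toList w := by
  constructor
  · intro h
    induction h with
    | nil p => exact ⟨[], trivial, rfl, rfl⟩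
    | @silent p q r w ht _ ih =>
      obtain ⟨l, h1, h2, h3⟩ := ih
      exact ⟨(p, none, q) :: l, ⟨ht, rfl, h1⟩, h2, h3⟩
    | @step p q r a w ht _ ih =>
      obtain ⟨l, h1, h2, h3⟩ := ih
      refine ⟨(p, some a, q) :: l, ⟨ht, rfl, h1⟩, h2, ?_⟩
      rw [FreeMonoid.toList_mul, FreeMonoid.toList_of, ← h3]
      rfl
  · rintro ⟨l, h1, h2, h3⟩
    induction l generalizing p w with
    | nil =>
      have hw : w = 1 := by
        apply FreeMonoid.toList.injective
        rw [← h3]
        rfl
      have hq : p = q := h2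
      rw [hw, ← hq]
      exact Run.nil p
    | cons t l ih =>
      obtain ⟨p', o, p''⟩ := t
      obtain ⟨h4, h5, h6⟩ := h1
      have h5' : p' = p := h5
      subst h5'
      cases o with
      | none => exact Run.silent h4 (ih p'' w h6 h2 h3)
      | some a =>
        have hw : w = FreeMonoid.of a * FreeMonoid.ofList (wd l) := by
          apply FreeMonoid.toList.injective
          rw [← h3]
          rfl
        rw [hw]
        exact Run.step h4 (ih p'' _ h6 h2 rfl)

lemma mem_lang_iff (A : Aut n) (w : FreeMonoid (Letter (Fin n))) :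
    w ∈ lang A ↔ ∃ l, FP A l ∧ wd l = FreeMonoid.toList w := by
  unfold lang
  constructor
  · rintro ⟨q, hq, h⟩
    obtain ⟨l, h1, h2, h3⟩ := (run_iff A 0 q w).1 h
    refine ⟨l, (FP_iff A [] l).2 ⟨h1, ?_⟩, h3⟩
    rw [lastc_snd, h2]
    exact hq
  · rintro ⟨l, h1, h3⟩
    obtain ⟨h1, h2⟩ := (FP_iff A [] l).1 h1
    rw [lastc_snd] at h2
    exact ⟨_, h2, (run_iff A 0 _ w).2 ⟨l, h1, rfl, h3⟩⟩

lemma qw_mem_rat (A : Aut n) (w : List (Ltr n)) :
    qw w ∈ rat A ↔ ∃ l, FP A l ∧ SameFrom [] w (wd l) := by
  constructor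
  · rintro ⟨v, hv, hvw⟩
    obtain ⟨l, h1, h2⟩ := (mem_lang_iff A v).1 hv
    refine ⟨l, h1, (munn_iff _ _).1 ?_⟩
    rw [h2, ← hvw]
    rfl
  · rintro ⟨l, h1, h2⟩
    refine ⟨FreeMonoid.ofList (wd l), (mem_lang_iff A _).2 ⟨l, h1, rfl⟩, ?_⟩
    exact ((munn_iff _ _).2 h2).symm

lemma mem_RS (A : Aut n) (u w : List (Ltr n)) : w ∈ RS A u ↔ qw w ∈ res (rat A) (qw u) := by
  rw [RS_iff (x := []) trivial, res, Set.mem_ofPred_eq, ← qw_append, qw_mem_rat]

lemma qw_surj (m : FIM (Fin n)) : ∃ w : List (Ltr n), qw w = m := by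
  obtain ⟨w, hw⟩ := Con.mk'_surjective (c := vagner (Fin n)) m
  exact ⟨FreeMonoid.toList w, hw⟩

/-- the link with the decision procedure -/
theorem recognizable_rat_iff (A : Aut n) : Recognizable (rat A) ↔ (Set.range (RS A)).Finite := by
  rw [recognizable_iff]
  have h1 : Set.range (RS A) = (fun S : Set (FIM (Fin n)) => qw ⁻¹' S) '' Set.range (res (rat A)) := by
    ext S
    constructor
    · rintro ⟨u, rfl⟩
      refine ⟨res (rat A) (qw u), ⟨_, rfl⟩, ?_⟩
      ext w
      exact (mem_RS A u w).symm
    · rintro ⟨_, ⟨m, rfl⟩, rfl⟩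
      obtain ⟨u, rfl⟩ := qw_surj m
      refine ⟨u, ?_⟩
      ext w
      exact mem_RS A u w
  rw [h1]
  have hinj : Function.Injective (fun S : Set (FIM (Fin n)) => (qw (n := n)) ⁻¹' S) :=
    Function.Surjective.preimage_injective qw_surj
  exact (Set.finite_image_iff hinj.injOn).symm

end Pool.Agent.FIMOwn
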