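import Pool.Agent.Lib.MP_5c1719_al.Own.Recog
import Pool.Agent.Lib.MP_5c1719_al.Compu

set_option autoImplicit false

/-! The decision procedure, uniformly in the alphabet. -/

namespace Pool.Agent.FIMOwn

open RecFIM

/-! ### letters named by natural numbers -/

abbrev LN := ℕ ⊕ ℕ
abbrev TN := ℕ × Option LN × ℕ
abbrev AN := List TN × List ℕ

def mvN (a : LN) (w : List LN) : List LN :=
  match w with
  | [] => [a]
  | b :: w' => if b = a.swap then w' else a :: b :: w'

def trN (w : List LN) : List LN × List (List LN) :=
  w.foldl (fun s a => (mvN a s.1, mvN a s.1 :: s.2)) ([], [[]])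

def sameN (w v : List LN) : Prop :=
  (trN w).1 = (trN v).1 ∧ (∀ z ∈ (trN w).2, ∃ z' ∈ (trN v).2, z' = z) ∧
    (∀ z ∈ (trN v).2, ∃ z' ∈ (trN w).2, z' = z)

def chkN (l : List TN) : Option ℕ :=
  l.foldl (fun o t => o.bind (fun q => if t.1 = q then some t.2.2 else none)) (some 0)

def kkN (A : AN) : ℕ := A.1.foldl (fun s t => s + t.1 + t.2.2) 0

def wdN (l : List TN) : List LN := l.filterMap (fun t => t.2.1)

def MBN (A : AN) (x : List LN) : Prop :=
  ∃ l ∈ lst A.1 (bP (kkN A) x.length), (∃ q ∈ A.2, chkN l = some q) ∧ sameN x (wdN l)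

def letN (n : ℕ) : List LN := (List.range n).map Sum.inl ++ (List.range n).map Sum.inr

def wordsN (n N : ℕ) : List (List LN) := lst (letN n) N

def bndN (n h : ℕ) : ℕ := (wordsN n h).length * (2 * h) + h

def DDN (n : ℕ) (A : AN) : Prop :=
  ∀ u ∈ wordsN n (bndN n (bQ5 n (kkN A)) + 1), ∃ u' ∈ wordsN n (bndN n (bQ5 n (kkN A))),
    ∀ w ∈ wordsN n (bndN n ((bndN n (bQ5 n (kkN A)) + 2) + bQ3' n (kkN A))),
      (MBN A (u ++ w) ↔ MBN A (u' ++ w))

/-! ### renaming -/

section ren

variable {n : ℕ}

def en (a : Ltr n) : LN := Sum.map Fin.val Fin.val a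

lemma en_inj : Function.Injective (en (n := n)) :=
  Function.Injective.sumMap Fin.val_injective Fin.val_injective

lemma en_swap (a : Ltr n) : en (linv a) = (en a).swap := by
  rcases a with a | a <;> rfl

def et (t : Tr n) : TN := (t.1, t.2.1.map en, t.2.2)

lemma mvN_en (a : Ltr n) (w : List (Ltr n)) : mvN (en a) (w.map en) = (move a w).map en := by
  cases w with
  | nil => rfl
  | cons b w' =>
    rw [List.map_cons, mvN, move, ← en_swap]
    by_cases h : b = linv a
    · simp [h]
    · have : en b ≠ en (linv a) := fun h' => h (en_inj h')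
      simp [h, this]

lemma trN_aux (w x : List (Ltr n)) (V : List (List (Ltr n))) :
    (w.map en).foldl (fun s a => (mvN a s.1, mvN a s.1 :: s.2)) (x.map en, V.map (List.map en)) =
      (((w.foldl (fun s a => (move a s.1, move a s.1 :: s.2)) (x, V)).1).map en,
        ((w.foldl (fun s a => (move a s.1, move a s.1 :: s.2)) (x, V)).2).map (List.map en)) := by
  induction w generalizing x V with
  | nil => rfl
  | cons a w ih =>
    rw [List.map_cons, List.foldl_cons, List.foldl_cons]
    simp only [mvN_en]
    rw [← ih (move a x) (move a x :: V), List.map_cons]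

lemma trN_en (w : List (Ltr n)) :
    trN (w.map en) = ((trL w).1.map en, (trL w).2.map (List.map en)) := by
  have := trN_aux w [] [[]]
  exact this

lemma map_en_inj : Function.Injective (List.map (en (n := n))) := en_inj.list_map

lemma sameN_en (w v : List (Ltr n)) : sameN (w.map en) (v.map en) ↔ SameFrom [] w v := by
  rw [same_iff_trL, sameN, trN_en, trN_en]
  simp only [List.mem_map, forall_exists_index, and_imp, forall_apply_eq_imp_iff₂,
    exists_exists_and_eq_and, map_en_inj.eq_iff]

lemma chkN_et (l : List (Tr n)) : chkN (l.map et) = chk l := by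
  unfold chkN chk
  rw [List.foldl_map]
  rfl

lemma wdN_et (l : List (Tr n)) : wdN (l.map et) = (wd l).map en := by
  unfold wdN wd
  rw [List.filterMap_map, List.map_filterMap]
  rfl

lemma name_fst (A : Aut n) : (name A).1 = A.1.map et := rfl

lemma name_snd (A : Aut n) : (name A).2 = A.2 := rfl

lemma kkN_name (A : Aut n) : kkN (name A) = kk A := by
  unfold kkN kk
  rw [name_fst, List.foldl_map]
  rfl

lemma lst_map {α β : Type} (f : α → β) (A : List α) (N : ℕ) :
    lst (A.map f) N = (lst A N).map (List.map f) := by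
  induction N with
  | zero => rfl
  | succ N ih =>
    rw [lst, lst, ih, List.map_cons, List.flatMap_map, List.map_flatMap]
    simp only [List.map_map, List.map_nil]
    rfl

lemma MBN_name (A : Aut n) (x : List (Ltr n)) : MBN (name A) (x.map en) ↔ MB A x := by
  unfold MBN MB
  rw [name_fst, name_snd, kkN_name, lst_map, List.length_map]
  simp only [List.mem_map, exists_exists_and_eq_and, chkN_et, wdN_et, sameN_en]

lemma letN_eq : letN n = (letters n).map en := by
  unfold letN letters
  rw [List.map_append, List.map_map, List.map_map, ← List.map_coe_finRange_eq_range]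
  rw [List.map_map, List.map_map]
  rfl

lemma wordsN_eq (N : ℕ) : wordsN n N = (words n N).map (List.map en) := by
  rw [wordsN, letN_eq, lst_map, words_eq]

lemma bndN_eq (h : ℕ) : bndN n h = bnd n h := by
  rw [bndN, bnd, wordsN_eq, List.length_map]

lemma DDN_name (A : Aut n) : DDN n (name A) ↔ DD A := by
  unfold DDN DD
  simp only [kkN_name, bndN_eq, wordsN_eq, List.mem_map, forall_exists_index, and_imp,
    forall_apply_eq_imp_iff₂, exists_exists_and_eq_and, ← List.map_append, MBN_name]

end ren

end Pool.Agent.FIMOwn
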